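import Pool.Agent.H23L4.Four
import Pool.Agent.H60S1.App

/-!
# The level step in the frame of `H60S1`
-/

set_option autoImplicit false

namespace Pool.Agent.H23L4

open Finset Pool.Agent.H60S1

variable {E K : Type*} [Fintype E] [DecidableEq E] [Field K]

theorem mx_empty_right (f : Finset E → K) (C : Finset E) : mx f C ∅ = up f C := by
  classical
  unfold mx up
  refine sum_congr ?_ fun _ _ => rfl
  ext A
  simp

theorem rs_eq_res (F : Finset E → K) (P : Finset E → Prop) : rs F P = res F P := rfl

theorem levelStep {r : ℕ} (hE : Fintype.card E = 2 * r) : LevelStep K E r := by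
  classical
  intro F N₁ N₂ _ _ hF hFc htot j hj hjr hlev P hP C hC
  by_cases hex : ∃ A₀, F A₀ ≠ 0
  swap
  · push Not at hex
    unfold up
    refine Finset.sum_eq_zero fun A _ => ?_
    unfold res
    split_ifs
    · exact hex A
    · rfl
  obtain ⟨A₀, hA₀⟩ := hex
  have hco : ∀ A : Finset E, F A ≠ 0 → F Aᶜ ≠ 0 := by
    intro A h
    rw [hFc A ((hF A).1 h).1]
    exact mul_ne_zero (pow_ne_zero _ (neg_ne_zero.2 one_ne_zero)) h
  have huniv : ∀ N : Matroid E, N.Indep (A₀ : Set E) → N.Indep ((A₀ᶜ : Finset E) : Set E) →
      N.E = Set.univ := by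
    intro N h1 h2
    rw [Set.eq_univ_iff_forall]
    intro x
    by_cases hx : x ∈ A₀
    · exact h1.subset_ground (by exact_mod_cast hx)
    · exact h2.subset_ground (by exact_mod_cast mem_compl.2 hx)
  have h0 := (hF A₀).1 hA₀
  have h0' := (hF A₀ᶜ).1 (hco A₀ hA₀)
  have fr : Frame r N₁ N₂ F :=
    { hE := hE
      hE1 := huniv N₁ h0.2.1 h0'.2.1
      hE2 := huniv N₂ h0.2.2 h0'.2.2
      hF := hF
      hco := hco
      htot := fun C hC => by
        rw [mx_empty_right]
        unfold up
        convert htot C hC }
  have hPc : Closed r F (fun A => P Aᶜ) := by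
    intro A A' h1 h2 h3 h4
    refine hP Aᶜ A'ᶜ h1 (hco A h2) (hco A' h3) ?_
    have c1 := ((hF A).1 h2).1
    have c2 := ((hF A').1 h3).1
    have c3 := card_union_add_card_inter A A'
    have c4 : (Aᶜ ∩ A'ᶜ).card = Fintype.card E - (A ∪ A').card := by
      rw [← compl_union, card_compl]
    have c5 : (A ∪ A').card ≤ Fintype.card E := card_le_univ _
    omega
  have key := level_q fr (P := P) hP (q := j) (fun D h1 h2 => by
      rw [mx_empty_right, rs_eq_res]
      exact hlev P hP D h1 h2) (fun D h1 h2 => by
      have h3 := hlev (fun A => P Aᶜ) hPc D h1 h2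
      have h4 : mx (rs F P) ∅ D = (-1) ^ r * up (res F (fun A => P Aᶜ)) D := by
        unfold mx up
        rw [mul_sum]
        refine Finset.sum_nbij' (fun A => Aᶜ) (fun A => Aᶜ) ?_ ?_ ?_ ?_ ?_
        · intro A hA
          rw [mem_filter] at hA ⊢
          refine ⟨mem_univ _, fun x hx => ?_⟩
          rw [mem_compl]
          exact fun hxA => Finset.disjoint_left.1 hA.2.2 hxA hx
        · intro A hA
          rw [mem_filter] at hA ⊢
          refine ⟨mem_univ _, empty_subset _, ?_⟩
          rw [Finset.disjoint_left]
          intro x hx hxD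
          exact (mem_compl.1 hx) (hA.2 hxD)
        · intro A _
          exact compl_compl A
        · intro A _
          exact compl_compl A
        · intro A _
          unfold rs res
          simp only [compl_compl]
          by_cases hPA : P A
          · rw [if_pos hPA, if_pos hPA]
            by_cases hFA : F A = 0
            · have hFA' : F Aᶜ = 0 := by
                by_contra h
                have := hco Aᶜ h
                rw [compl_compl] at this
                exact this hFA
              rw [hFA, hFA', mul_zero]
            · rw [hFc A ((hF A).1 hFA).1, ← mul_assoc, ← mul_pow]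
              norm_num
          · rw [if_neg hPA, if_neg hPA, mul_zero]
      rw [h4, h3, mul_zero]) (by omega) (by omega) C hC
  rw [mx_empty_right, rs_eq_res] at key
  exact key

theorem levelStep_sum (r : ℕ) : LevelStep K (Fin r ⊕ Fin r) r :=
  levelStep (by rw [Fintype.card_sum, Fintype.card_fin]; omega)

end Pool.Agent.H23L4
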