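import Pool.Agent.H23L4.Adapt

/-!
# Single exchanges for a small number of elements
-/

set_option autoImplicit false

namespace Pool.Agent.H23L4

variable {K : Type*} [Field K]

/-- The swap by single symmetric exchanges for `n = |B \ B'|` if `n ≤ 13`, or `3 = 0` in `K` and
`n ≤ 33`, or all `s > 0` with `4 s ≤ n + 2` are nonzero in `K`. -/
theorem single_swap {α V : Type*} [AddCommGroup V] [Module K V]
    (M : Matroid α) (φ : α → V) (hφ : ∀ X ⊆ M.E, M.Indep X ↔ LinearIndepOn K φ X)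
    {B B' : Set α} (hB : M.IsBase B) (hB' : M.IsBase B') (hfin : B.Finite)
    (h : (B \ B').ncard ≤ 13 ∨ ((3 : K) = 0 ∧ (B \ B').ncard ≤ 33) ∨
      ∀ s : ℕ, 0 < s → 4 * s ≤ (B \ B').ncard + 2 → (s : K) ≠ 0) :
    Relation.ReflTransGen (H11SW.SymExchange M) (B, B') (B', B) :=
  H60S1.single_swap M φ hφ hB hB' hfin levelStep_sum (H60S1.cond_of h)

end Pool.Agent.H23L4
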