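import Pool.Agent.H23L4.Lvl

/-!
# Level `q` follows from the smaller levels when `r ≤ 4 q - 3`, and the reachable complement
-/

set_option autoImplicit false

namespace Pool.Agent.H23L4

open Finset

variable {E K : Type*} [Fintype E] [DecidableEq E] [AddCommGroup K]

open Classical in
/-- `F` restricted to `P`. -/
noncomputable def rs (F : Finset E → K) (P : Finset E → Prop) (A : Finset E) : K :=
  if P A then F A else 0

theorem rs_ne_zero {F : Finset E → K} {P : Finset E → Prop} {A : Finset E} :
    rs F P A ≠ 0 ↔ P A ∧ F A ≠ 0 := by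
  classical
  unfold rs
  by_cases h : P A <;> simp [h]

/-- The frame: `F` is supported on the common bases of `N₁`, `N₂`, the support is closed under
complements, and the total sums vanish. -/
structure Frame (r : ℕ) (N₁ N₂ : Matroid E) (F : Finset E → K) : Prop where
  hE : Fintype.card E = 2 * r
  hE1 : N₁.E = Set.univ
  hE2 : N₂.E = Set.univ
  hF : ∀ A : Finset E, F A ≠ 0 ↔ A.card = r ∧ N₁.Indep (A : Set E) ∧ N₂.Indep (A : Set E)
  hco : ∀ A : Finset E, F A ≠ 0 → F Aᶜ ≠ 0
  htot : ∀ C : Finset E, C.card < r → mx F C ∅ = 0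

/-- Closed under single exchanges inside the support. -/
def Cl (r : ℕ) (F : Finset E → K) (P : Finset E → Prop) : Prop :=
  ∀ A A', P A → F A ≠ 0 → F A' ≠ 0 → r ≤ (A ∩ A').card + 1 → P A'

variable {r : ℕ} {N₁ N₂ : Matroid E} {F : Finset E → K}

open Classical in
/-- The level of size `q`. -/
theorem level_q (fr : Frame r N₁ N₂ F) {P : Finset E → Prop} (hP : Cl r F P) {q : ℕ}
    (hlev : ∀ D : Finset E, r < D.card + q → D.card < r → mx (rs F P) D ∅ = 0)
    (hcolev : ∀ D : Finset E, r < D.card + q → D.card < r → mx (rs F P) ∅ D = 0)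
    (hq : r + 3 ≤ 4 * q) (hq1 : 1 ≤ q) (C : Finset E) (hC : C.card + q = r) :
    mx (rs F P) C ∅ = 0 := by
  have hcard : ∀ A, rs F P A ≠ 0 → A.card = r := fun A h => ((fr.hF A).1 (rs_ne_zero.1 h).2).1
  have ind1 : ∀ A, rs F P A ≠ 0 → N₁.Indep (A : Set E) ∧ N₁.Indep ((Aᶜ : Finset E) : Set E) ∧
      N₂.Indep (A : Set E) ∧ N₂.Indep ((Aᶜ : Finset E) : Set E) ∧ Aᶜ.card = r := by
    intro A h
    have h1 := (rs_ne_zero.1 h).2
    have h2 := (fr.hF A).1 h1
    have h3 := (fr.hF Aᶜ).1 (fr.hco A h1)
    exact ⟨h2.2.1, h3.2.1, h2.2.2, h3.2.2, h3.1⟩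
  -- a common independent set without extension
  have noext : ∀ G : Finset E, C ⊆ G → G.card + 1 = r → N₁.Indep (G : Set E) →
      N₂.Indep (G : Set E) → (∀ e, e ∉ G → ¬ (N₁.Indep ((insert e G : Finset E) : Set E) ∧
        N₂.Indep ((insert e G : Finset E) : Set E))) → mx (rs F P) C ∅ = 0 := by
    intro G hCG hGc i1 i2 hno
    set Z : Finset E := univ.filter (fun e => e ∉ C ∧ e ∈ N₁.closure (G : Set E)) with hZ
    have hsub : ∀ X : Finset E, X ⊆ C ∪ Z → (X : Set E) ⊆ N₁.closure (G : Set E) := by
      intro X hX x hx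
      have hx' : x ∈ X := by exact_mod_cast hx
      rcases mem_union.1 (hX hx') with h | h
      · exact N₁.subset_closure _ i1.subset_ground (by exact_mod_cast hCG h)
      · exact (mem_filter.1 h).2.2
    rw [← keep (rs F P) hcard hlev (Z := Z) hC]
    · refine Finset.sum_eq_zero fun A hA => ?_
      by_contra hfA
      rw [mem_filter] at hA
      obtain ⟨j1, j2, j3, j4, j5⟩ := ind1 A hfA
      have hsub2 : (A : Set E) ⊆ N₂.closure (G : Set E) := by
        intro x hx
        have hxA : x ∈ A := by exact_mod_cast hx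
        by_cases hxG : x ∈ G
        · exact N₂.subset_closure _ i2.subset_ground (by exact_mod_cast hxG)
        · have hxC : x ∉ C := fun h => hxG (hCG h)
          have hx1 : x ∉ N₁.closure (G : Set E) := fun h =>
            Finset.disjoint_left.1 hA.2.2 hxA (mem_filter.2 ⟨mem_univ _, hxC, h⟩)
          by_contra hx2
          refine hno x hxG ⟨?_, ?_⟩
          · rw [Finset.coe_insert, i1.insert_indep_iff]
            exact Or.inl ⟨by rw [fr.hE1]; trivial, hx1⟩
          · rw [Finset.coe_insert, i2.insert_indep_iff]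
            exact Or.inl ⟨by rw [fr.hE2]; trivial, hx2⟩
      have := card_le_of_closure N₂ i2 j3 hsub2
      have := hcard A hfA
      omega
    · rw [Finset.disjoint_left]
      intro x hx hx'
      exact (mem_filter.1 hx').2.1 hx
    · intro A hfA hA
      have := card_le_of_closure N₁ i1 (ind1 A hfA).1 (hsub A hA)
      have := hcard A hfA
      omega
  -- the hyperplane bound
  have bound : ∀ (N : Matroid E) (I : Finset E), N.Indep (I : Set E) → I.card + 1 = r → C ⊆ I →
      (∀ A, rs F P A ≠ 0 → N.Indep (A : Set E) ∧ N.Indep ((Aᶜ : Finset E) : Set E)) →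
      mx (rs F P) C ∅ ≠ 0 →
      (univ.filter (fun e => e ∈ N.closure (I : Set E))).card ≤ 2 * C.card := by
    intro N I hI hIc hCI hind hne
    set H : Finset E := univ.filter (fun e => e ∈ N.closure (I : Set E)) with hH
    have hCH : C ⊆ H := by
      intro x hx
      exact mem_filter.2 ⟨mem_univ _, N.subset_closure _ hI.subset_ground
        (by exact_mod_cast hCI hx)⟩
    by_contra hcon
    push Not at hcon
    refine hne (small (rs F P) hcard hlev hcolev fr.hE (C := C) (Z := H \ C) hC ?_ ?_ ?_ ?_)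
    · exact Finset.disjoint_sdiff
    · intro A hfA hA
      rw [union_sdiff_of_subset hCH] at hA
      have := card_le_of_closure N hI (hind A hfA).1 (fun x hx => by
        exact (mem_filter.1 (hA (by exact_mod_cast hx))).2)
      have := hcard A hfA
      omega
    · intro A hfA hA
      rw [union_sdiff_of_subset hCH] at hA
      have := card_le_of_closure N hI (hind A hfA).2 (fun x hx => by
        exact (mem_filter.1 (hA (by exact_mod_cast hx))).2)
      have := (ind1 A hfA).2.2.2.2
      omega
    · rw [card_sdiff_of_subset hCH]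
      omega
  by_contra hne
  -- members on both sides
  have hexA : ∃ A, C ⊆ A ∧ P A ∧ F A ≠ 0 := by
    by_contra h
    push Not at h
    refine hne (Finset.sum_eq_zero fun A hA => ?_)
    rw [mem_filter] at hA
    by_contra hfA
    have := rs_ne_zero.1 hfA
    exact this.2 (h A hA.2.1 this.1)
  have hexA' : ∃ A', C ⊆ A' ∧ ¬ P A' ∧ F A' ≠ 0 := by
    by_contra h
    push Not at h
    refine hne ?_
    rw [← fr.htot C (by omega)]
    refine Finset.sum_congr rfl fun A hA => ?_
    rw [mem_filter] at hA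
    unfold rs
    by_cases hPA : P A
    · rw [if_pos hPA]
    · rw [if_neg hPA, h A hA.2.1 hPA]
  obtain ⟨A₀, hA₀1, hA₀2, hA₀3⟩ := hexA
  obtain ⟨A₀', hA₀1', hA₀2', hA₀3'⟩ := hexA'
  obtain ⟨⟨A, A'⟩, hmem, hmax⟩ := Finset.exists_max_image
    ((univ ×ˢ univ : Finset (Finset E × Finset E)).filter (fun p => (C ⊆ p.1 ∧ P p.1 ∧ F p.1 ≠ 0) ∧
      (C ⊆ p.2 ∧ ¬ P p.2 ∧ F p.2 ≠ 0))) (fun p => (p.1 ∩ p.2).card)
    ⟨(A₀, A₀'), by
      rw [mem_filter]
      exact ⟨by simp, ⟨hA₀1, hA₀2, hA₀3⟩, hA₀1', hA₀2', hA₀3'⟩⟩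
  rw [mem_filter] at hmem
  obtain ⟨_, ⟨hCA, hPA, hFA⟩, hCA', hPA', hFA'⟩ := hmem
  simp only at hCA hPA hFA hCA' hPA' hFA'
  have hmax' : ∀ B B', C ⊆ B → C ⊆ B' → P B → F B ≠ 0 → ¬ P B' → F B' ≠ 0 →
      (B ∩ B').card ≤ (A ∩ A').card := by
    intro B B' h1 h2 h3 h4 h5 h6
    exact hmax (B, B') (by rw [mem_filter]; exact ⟨by simp, ⟨h1, h3, h4⟩, h2, h5, h6⟩)
  by_cases h3 : (A ∩ A').card + 3 ≤ r
  · obtain ⟨G, g1, g2, g3, g4, g5⟩ := dist_three F N₁ N₂ fr.hF P hCA hCA' hPA hFA hPA' hFA' hmax' h3
    exact hne (noext G g1 g2 g3 g4 g5)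
  · obtain ⟨cA, iA1, iA2⟩ := (fr.hF A).1 hFA
    obtain ⟨cA', iA1', iA2'⟩ := (fr.hF A').1 hFA'
    have hnadj : (A ∩ A').card + 2 ≤ r := by
      by_contra h
      exact hPA' (hP A A' hPA hFA hFA' (by omega))
    have hGc : (A ∩ A').card + 2 = r := by omega
    set G := A ∩ A' with hGdef
    have hCG : C ⊆ G := subset_inter hCA hCA'
    have pair : ∀ B : Finset E, G ⊆ B → B.card = r →
        ∃ x y, x ∉ G ∧ y ∉ G ∧ B = insert x (insert y G) := by
      intro B hB hk
      have h1 : (B \ G).card = 2 := by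
        rw [Finset.card_sdiff_of_subset hB]
        omega
      obtain ⟨x, y, hxy, h2⟩ := Finset.card_eq_two.1 h1
      have hx : x ∈ B \ G := by rw [h2]; simp
      have hy : y ∈ B \ G := by rw [h2]; simp
      refine ⟨x, y, (Finset.mem_sdiff.1 hx).2, (Finset.mem_sdiff.1 hy).2, ?_⟩
      have h3 : B = (B \ G) ∪ G := (Finset.sdiff_union_of_subset hB).symm
      rw [h3, h2]
      ext z
      simp [or_assoc]
    obtain ⟨a1, a2, ha1, ha2, eA⟩ := pair A inter_subset_left cA
    obtain ⟨d1, d2, hd1, hd2, eD⟩ := pair A' inter_subset_right cA'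
    rw [eA] at hFA hPA iA1 iA2
    rw [eD] at hFA' hPA'
    have hswF : ∀ B : Finset E, F B ≠ 0 ↔ B.card = r ∧ N₂.Indep (B : Set E) ∧
        N₁.Indep (B : Set E) := by
      intro B
      rw [fr.hF B]
      tauto
    have gen1 := fun (e : E) h1 h2 => generic F N₁ N₂ fr.hF P hP hGc hFA hPA hFA' hPA' (e := e) h1
      h2 fr.hE1 fr.hE2
    have gen2 := fun (e : E) h1 h2 => generic F N₂ N₁ hswF P hP hGc hFA hPA hFA' hPA' (e := e) h1
      h2 fr.hE2 fr.hE1
    have sub : ∀ N : Matroid E, N.Indep ((insert a1 (insert a2 G) : Finset E) : Set E) →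
        N.Indep ((insert a1 G : Finset E) : Set E) ∧ N.Indep ((insert a2 G : Finset E) : Set E) ∧
        N.Indep (G : Set E) := by
      intro N h
      refine ⟨h.subset ?_, h.subset ?_, h.subset ?_⟩
      · exact_mod_cast Finset.insert_subset_insert a1 (Finset.subset_insert a2 G)
      · exact_mod_cast Finset.subset_insert a1 (insert a2 G)
      · exact_mod_cast (Finset.subset_insert a2 G).trans (Finset.subset_insert a1 (insert a2 G))
    obtain ⟨i11, i12, i10⟩ := sub N₁ iA1
    obtain ⟨i21, i22, i20⟩ := sub N₂ iA2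
    have ca1 : (insert a1 G).card + 1 = r := by rw [card_insert_of_notMem ha1]; omega
    have ca2 : (insert a2 G).card + 1 = r := by rw [card_insert_of_notMem ha2]; omega
    have indN1 : ∀ A, rs F P A ≠ 0 → N₁.Indep (A : Set E) ∧ N₁.Indep ((Aᶜ : Finset E) : Set E) :=
      fun A h => ⟨(ind1 A h).1, (ind1 A h).2.1⟩
    have indN2 : ∀ A, rs F P A ≠ 0 → N₂.Indep (A : Set E) ∧ N₂.Indep ((Aᶜ : Finset E) : Set E) :=
      fun A h => ⟨(ind1 A h).2.2.1, (ind1 A h).2.2.2.1⟩
    have b11 := bound N₁ (insert a1 G) i11 ca1 (hCG.trans (subset_insert _ _)) indN1 hne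
    have b12 := bound N₁ (insert a2 G) i12 ca2 (hCG.trans (subset_insert _ _)) indN1 hne
    have b21 := bound N₂ (insert a1 G) i21 ca1 (hCG.trans (subset_insert _ _)) indN2 hne
    have b22 := bound N₂ (insert a2 G) i22 ca2 (hCG.trans (subset_insert _ _)) indN2 hne
    -- one side of the count
    have side : ∀ (N N' : Matroid E) (p : N.Indep ((insert a1 G : Finset E) : Set E))
        (p' : N.Indep ((insert a2 G : Finset E) : Set E)) (p0 : N.Indep (G : Set E))
        (p0' : N'.Indep ((insert a1 G : Finset E) : Set E))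
        (hgen : ∀ e, e ∉ N'.closure ((insert a1 G : Finset E) : Set E) →
          e ∉ N'.closure ((insert a2 G : Finset E) : Set E) → e ∈ N.closure (G : Set E)),
        (univ.filter (fun e => e ∈ N.closure ((insert a1 G : Finset E) : Set E)) ∪
          univ.filter (fun e => e ∈ N.closure ((insert a2 G : Finset E) : Set E))).card +
        G.card + Fintype.card E ≤
        (univ.filter (fun e => e ∈ N.closure ((insert a1 G : Finset E) : Set E))).card +
        (univ.filter (fun e => e ∈ N.closure ((insert a2 G : Finset E) : Set E))).card +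
        (univ.filter (fun e => e ∈ N'.closure ((insert a1 G : Finset E) : Set E)) ∪
          univ.filter (fun e => e ∈ N'.closure ((insert a2 G : Finset E) : Set E))).card := by
      intro N N' p p' p0 p0' hgen
      set F1 := univ.filter (fun e => e ∈ N.closure ((insert a1 G : Finset E) : Set E)) with hF1
      set F2 := univ.filter (fun e => e ∈ N.closure ((insert a2 G : Finset E) : Set E)) with hF2
      set G1 := univ.filter (fun e => e ∈ N'.closure ((insert a1 G : Finset E) : Set E)) with hG1
      set G2 := univ.filter (fun e => e ∈ N'.closure ((insert a2 G : Finset E) : Set E)) with hG2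
      have hQ : G ∪ (G1 ∪ G2)ᶜ ⊆ F1 ∩ F2 := by
        intro x hx
        have hx0 : x ∈ N.closure (G : Set E) := by
          rcases mem_union.1 hx with h | h
          · exact N.subset_closure _ p0.subset_ground (by exact_mod_cast h)
          · rw [mem_compl, mem_union, mem_filter, mem_filter] at h
            push Not at h
            exact hgen x (h.1 (mem_univ _)) (h.2 (mem_univ _))
        rw [mem_inter, mem_filter, mem_filter]
        exact ⟨⟨mem_univ _, N.closure_subset_closure (by exact_mod_cast subset_insert a1 G) hx0⟩,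
          mem_univ _, N.closure_subset_closure (by exact_mod_cast subset_insert a2 G) hx0⟩
      have hdis : Disjoint G (G1 ∪ G2)ᶜ := by
        rw [Finset.disjoint_left]
        intro x hx hx'
        rw [mem_compl, mem_union, mem_filter] at hx'
        refine hx' (Or.inl ⟨mem_univ _, N'.subset_closure _ p0'.subset_ground ?_⟩)
        exact_mod_cast mem_insert_of_mem hx
      have c1 := card_le_card hQ
      rw [card_union_of_disjoint hdis] at c1
      have c2 := card_union_add_card_inter F1 F2
      have c3 := card_compl_add_card (G1 ∪ G2)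
      omega
    have s1 := side N₁ N₂ i11 i12 i10 i21 gen2
    have s2 := side N₂ N₁ i21 i22 i20 i11 gen1
    have hE := fr.hE
    omega

end Pool.Agent.H23L4
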