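import Mathlib

/-!
# Link sums of single exchanges: level `q` follows from the smaller levels when `r ≤ 4 q - 3`

`F` is a function on the finite subsets of a set `E` with `2 r` elements whose support is the set of
the common bases (`r` elements, independent in both matroids), the support is closed under
complements and all sums of `F` over the sets which contain a set with fewer than `r` elements
vanish. `P` is closed under single exchanges inside the support. (Argument of helper61 and helper10.)
-/

set_option autoImplicit false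

namespace Pool.Agent.H23L4

open Finset

variable {E K : Type*} [Fintype E] [DecidableEq E] [AddCommGroup K]

open Classical in
/-- The sum of `f` over the sets which contain `C` and miss `D`. -/
noncomputable def mx (f : Finset E → K) (C D : Finset E) : K :=
  ∑ A ∈ univ.filter (fun A => C ⊆ A ∧ Disjoint A D), f A

theorem mx_step (f : Finset E → K) (C D : Finset E) (z : E) :
    mx f C (insert z D) = mx f C D - mx f (insert z C) D := by
  classical
  rw [eq_sub_iff_add_eq]
  unfold mx
  have h : univ.filter (fun A => C ⊆ A ∧ Disjoint A D) =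
      univ.filter (fun A => C ⊆ A ∧ Disjoint A (insert z D)) ∪
      univ.filter (fun A => insert z C ⊆ A ∧ Disjoint A D) := by
    ext A
    simp only [mem_filter, mem_univ, true_and, mem_union, Finset.disjoint_insert_right,
      Finset.insert_subset_iff]
    by_cases hz : z ∈ A <;> simp [hz]
  rw [h, Finset.sum_union]
  rw [Finset.disjoint_left]
  intro A hA hA'
  simp only [mem_filter, mem_univ, true_and, Finset.disjoint_insert_right,
    Finset.insert_subset_iff] at hA hA'
  exact hA.2.1 hA'.1.1

/-- If all sums over the sets containing `C` and a nonempty part of `Z` vanish, then the sum over the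
sets containing `C` and missing `Z` is the sum over the sets containing `C`. -/
theorem mx_right (f : Finset E → K) (Z : Finset E) : ∀ C : Finset E,
    (∀ Z' ⊆ Z, Z'.Nonempty → mx f (C ∪ Z') ∅ = 0) → mx f C Z = mx f C ∅ := by
  classical
  induction Z using Finset.induction_on with
  | empty => intro C _; rfl
  | insert z Z hz ih =>
    intro C h
    rw [mx_step, ih C fun Z' h1 h2 => h Z' (h1.trans (subset_insert z Z)) h2,
      ih (insert z C) fun Z' h1 h2 => by
        have h3 := h (insert z Z') (insert_subset_insert z h1) (insert_nonempty z Z')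
        have h4 : C ∪ insert z Z' = insert z C ∪ Z' := by
          ext x; simp only [mem_union, mem_insert]; tauto
        rwa [h4] at h3]
    have h5 := h {z} (by simp) (singleton_nonempty z)
    have h6 : C ∪ {z} = insert z C := by
      ext x; simp only [mem_union, mem_insert, mem_singleton]; tauto
    rw [h6] at h5
    rw [h5, sub_zero]

/-- If all sums over the sets missing `Z` and a part of `C` vanish, then the sum over the sets
containing `C` and missing `Z` vanishes. -/
theorem mx_left (f : Finset E → K) (C : Finset E) : ∀ Z : Finset E,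
    (∀ C' ⊆ C, mx f ∅ (Z ∪ C') = 0) → mx f C Z = 0 := by
  classical
  induction C using Finset.induction_on with
  | empty =>
    intro Z h
    have := h ∅ (empty_subset _)
    rwa [union_empty] at this
  | insert c C hc ih =>
    intro Z h
    have h1 := mx_step f C Z c
    have h2 : mx f (insert c C) Z = mx f C Z - mx f C (insert c Z) := by
      rw [h1]; abel
    rw [h2, ih Z fun C' h3 => h C' (h3.trans (subset_insert c C)),
      ih (insert c Z) fun C' h3 => by
        have h4 := h (insert c C') (insert_subset_insert c h3)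
        have h5 : Z ∪ insert c C' = insert c Z ∪ C' := by
          ext x; simp only [mem_union, mem_insert]; tauto
        rwa [h5] at h4, sub_zero]

section small

variable {r q : ℕ} (f : Finset E → K) (hcard : ∀ A, f A ≠ 0 → A.card = r)
  (hlev : ∀ D : Finset E, r < D.card + q → D.card < r → mx f D ∅ = 0)

include hcard hlev in
theorem keep {C Z : Finset E} (hC : C.card + q = r) (hd : Disjoint C Z)
    (h1 : ∀ A, f A ≠ 0 → ¬ A ⊆ C ∪ Z) : mx f C Z = mx f C ∅ := by
  classical
  refine mx_right f Z C fun Z' hZ' hne => ?_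
  have hc : (C ∪ Z').card = C.card + Z'.card :=
    card_union_of_disjoint (disjoint_of_subset_right hZ' hd)
  have hpos := hne.card_pos
  by_cases h : (C ∪ Z').card < r
  · exact hlev _ (by omega) h
  · refine Finset.sum_eq_zero fun A hA => ?_
    by_contra hfA
    rw [mem_filter] at hA
    have h2 := hcard A hfA
    have h3 : C ∪ Z' = A := Finset.eq_of_subset_of_card_le hA.2.1 (by omega)
    refine h1 A hfA ?_
    rw [← h3]
    exact union_subset_union_right hZ'

variable (hcolev : ∀ D : Finset E, r < D.card + q → D.card < r → mx f ∅ D = 0)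
  (hE : Fintype.card E = 2 * r)

include hcard hlev hcolev hE in
/-- The hyperplane bound. -/
theorem small {C Z : Finset E} (hC : C.card + q = r) (hd : Disjoint C Z)
    (h1 : ∀ A, f A ≠ 0 → ¬ A ⊆ C ∪ Z) (h2 : ∀ A, f A ≠ 0 → ¬ Aᶜ ⊆ C ∪ Z)
    (hZ : C.card < Z.card) : mx f C ∅ = 0 := by
  classical
  rw [← keep f hcard hlev hC hd h1]
  refine mx_left f C Z fun C' hC' => ?_
  have hc : (Z ∪ C').card = Z.card + C'.card :=
    card_union_of_disjoint (disjoint_of_subset_right hC' hd.symm)
  by_cases h : (Z ∪ C').card < r
  · exact hcolev _ (by omega) h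
  · refine Finset.sum_eq_zero fun A hA => ?_
    by_contra hfA
    rw [mem_filter] at hA
    have h3 := hcard A hfA
    have h4 : Aᶜ.card = r := by
      rw [card_compl]; omega
    have h5 : Z ∪ C' ⊆ Aᶜ := by
      intro x hx
      rw [mem_compl]
      exact fun hxA => Finset.disjoint_left.1 hA.2.2 hxA hx
    have h6 : Z ∪ C' = Aᶜ := Finset.eq_of_subset_of_card_le h5 (by omega)
    refine h2 A hfA ?_
    rw [← h6]
    intro x hx
    rcases mem_union.1 hx with h | h
    · exact mem_union_right _ h
    · exact mem_union_left _ (hC' h)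

end small

/-! ### Matroid lemmas -/

theorem ext_to (N : Matroid E) (J : Finset E) (hJ : N.Indep (J : Set E)) : ∀ (n : ℕ) (I : Finset E),
    N.Indep (I : Set E) → I.card + n = J.card →
    ∃ I' : Finset E, I ⊆ I' ∧ I' ⊆ I ∪ J ∧ N.Indep (I' : Set E) ∧ I'.card = J.card := by
  classical
  intro n
  induction n with
  | zero => intro I hI h; exact ⟨I, Subset.refl _, subset_union_left, hI, by omega⟩
  | succ n ih =>
    intro I hI h
    obtain ⟨e, he, he2, hie⟩ := hI.augment_finset hJ (by omega)
    rw [← Finset.coe_insert] at hie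
    obtain ⟨I', h1, h2, h3, h4⟩ := ih (insert e I) hie (by
      rw [card_insert_of_notMem he2]; omega)
    refine ⟨I', (subset_insert e I).trans h1, h2.trans ?_, h3, h4⟩
    intro x hx
    rw [mem_union, mem_insert] at hx
    rw [mem_union]
    rcases hx with (rfl | hx) | hx
    · exact Or.inr he
    · exact Or.inl hx
    · exact Or.inr hx

theorem card_le_of_closure (N : Matroid E) {I A : Finset E} (hI : N.Indep (I : Set E))
    (hA : N.Indep (A : Set E)) (h : (A : Set E) ⊆ N.closure (I : Set E)) : A.card ≤ I.card := by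
  have h1 : (A : Set E).encard ≤ (I : Set E).encard := by
    rw [← hA.eRk_eq_encard, ← hI.eRk_eq_encard, ← N.eRk_closure_eq (I : Set E)]
    exact N.eRk_mono h
  rw [Set.encard_coe_eq_coe_finsetCard, Set.encard_coe_eq_coe_finsetCard] at h1
  exact_mod_cast h1

section geo

variable {r : ℕ} (F : Finset E → K) (N₁ N₂ : Matroid E)
  (hF : ∀ A : Finset E, F A ≠ 0 ↔
    A.card = r ∧ N₁.Indep (A : Set E) ∧ N₂.Indep (A : Set E))
  (P : Finset E → Prop)
  (hP : ∀ A A', P A → F A ≠ 0 → F A' ≠ 0 → r ≤ (A ∩ A').card + 1 → P A')

include hF in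
/-- Distance at least three: a common independent set without common extension. -/
theorem dist_three {C A A' : Finset E} (hCA : C ⊆ A) (hCA' : C ⊆ A') (hPA : P A) (hFA : F A ≠ 0)
    (hPA' : ¬ P A') (hFA' : F A' ≠ 0)
    (hmax : ∀ B B', C ⊆ B → C ⊆ B' → P B → F B ≠ 0 → ¬ P B' → F B' ≠ 0 →
      (B ∩ B').card ≤ (A ∩ A').card)
    (h3 : (A ∩ A').card + 3 ≤ r) :
    ∃ G : Finset E, C ⊆ G ∧ G.card + 1 = r ∧ N₁.Indep (G : Set E) ∧ N₂.Indep (G : Set E) ∧
      ∀ e, e ∉ G → ¬ (N₁.Indep ((insert e G : Finset E) : Set E) ∧
        N₂.Indep ((insert e G : Finset E) : Set E)) := by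
  classical
  obtain ⟨cA, iA1, iA2⟩ := (hF A).1 hFA
  obtain ⟨cA', iA1', iA2'⟩ := (hF A').1 hFA'
  have hne : ∃ d, d ∈ A' ∧ d ∉ A := by
    by_contra h
    push Not at h
    have : A' ⊆ A := h
    rw [inter_eq_right.2 this] at h3
    omega
  obtain ⟨d, hdA', hdA⟩ := hne
  have hdi : d ∉ A ∩ A' := fun h => hdA (mem_inter.1 h).1
  have hT : insert d (A ∩ A') ⊆ A' := insert_subset hdA' inter_subset_right
  have cT : (insert d (A ∩ A')).card = (A ∩ A').card + 1 := card_insert_of_notMem hdi
  have ex : ∀ N : Matroid E, N.Indep (A : Set E) → N.Indep (A' : Set E) →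
      ∃ I : Finset E, insert d (A ∩ A') ⊆ I ∧ I ⊆ insert d A ∧ N.Indep (I : Set E) ∧
        I.card = r := by
    intro N h1 h2
    obtain ⟨I, g1, g2, g3, g4⟩ := ext_to N A h1 (A.card - (insert d (A ∩ A')).card)
      (insert d (A ∩ A')) (h2.subset (by exact_mod_cast hT)) (by omega)
    refine ⟨I, g1, g2.trans ?_, g3, by omega⟩
    intro x hx
    rw [mem_union, mem_insert, mem_inter] at hx
    rw [mem_insert]
    tauto
  obtain ⟨I1, a1, a2, a3, a4⟩ := ex N₁ iA1 iA1'
  obtain ⟨I2, b1, b2, b3, b4⟩ := ex N₂ iA2 iA2'
  have hu : (I1 ∪ I2).card ≤ r + 1 := by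
    have := card_le_card (union_subset a2 b2)
    rw [card_insert_of_notMem hdA] at this
    omega
  have hi : r ≤ (I1 ∩ I2).card + 1 := by
    have := card_union_add_card_inter I1 I2
    omega
  obtain ⟨G, g1, g2, g3⟩ := Finset.exists_subsuperset_card_eq
    (Finset.subset_inter a1 b1) (n := r - 1) (by omega) (by omega)
  have hGd : G ⊆ insert d A := (g2.trans inter_subset_left).trans a2
  refine ⟨G, ?_, by omega, a3.subset (by exact_mod_cast g2.trans inter_subset_left),
    b3.subset (by exact_mod_cast g2.trans inter_subset_right), ?_⟩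
  · intro x hx
    exact g1 (mem_insert_of_mem (mem_inter.2 ⟨hCA hx, hCA' hx⟩))
  · rintro e heG ⟨h1, h2⟩
    have cB : (insert e G).card = r := by rw [card_insert_of_notMem heG]; omega
    have hFB : F (insert e G) ≠ 0 := (hF _).2 ⟨cB, h1, h2⟩
    have hCB : C ⊆ insert e G := by
      intro x hx
      exact mem_insert_of_mem (g1 (mem_insert_of_mem (mem_inter.2 ⟨hCA hx, hCA' hx⟩)))
    by_cases hPB : P (insert e G)
    · have h4 := hmax (insert e G) A' hCB hCA' hPB hFB hPA' hFA'
      have h5 : insert d (A ∩ A') ⊆ insert e G ∩ A' :=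
        subset_inter (g1.trans (subset_insert e G)) hT
      have h6 := card_le_card h5
      omega
    · have h4 := hmax A (insert e G) hCA hCB hPA hFA hPB hFB
      have h5 : G.erase d ⊆ A ∩ insert e G := by
        intro x hx
        rw [mem_erase] at hx
        rw [mem_inter]
        refine ⟨?_, mem_insert_of_mem hx.2⟩
        rcases mem_insert.1 (hGd hx.2) with h | h
        · exact absurd h hx.1
        · exact h
      have h6 := card_le_card h5
      have h7 := G.pred_card_le_card_erase (a := d)
      omega

/-- Flats over `G`: two elements with different flats are independent over `G`. -/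
theorem indep_pair (N : Matroid E) {G : Finset E} {x y : E}
    (hx : N.Indep ((insert x G : Finset E) : Set E)) (hxG : x ∉ G)
    (hy : N.Indep ((insert y G : Finset E) : Set E)) (hyG : y ∉ G)
    (h : N.closure ((insert x G : Finset E) : Set E) ≠
      N.closure ((insert y G : Finset E) : Set E)) :
    x ≠ y ∧ N.Indep ((insert x (insert y G) : Finset E) : Set E) := by
  have hne : x ≠ y := by rintro rfl; exact h rfl
  refine ⟨hne, ?_⟩
  have hGi : N.Indep (G : Set E) := hx.subset (by exact_mod_cast subset_insert x G)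
  have hxE : x ∈ N.E := hx.subset_ground (by simp)
  have hyE : y ∈ N.E := hy.subset_ground (by simp)
  by_contra hcon
  have h1 : x ∈ N.closure ((insert y G : Finset E) : Set E) := by
    by_contra h2
    refine hcon ?_
    rw [Finset.coe_insert]
    rw [hy.insert_indep_iff]
    exact Or.inl ⟨hxE, h2⟩
  apply h
  -- closure (insert x G) = closure (insert y G)
  have h3 : N.closure ((insert x G : Finset E) : Set E) ⊆
      N.closure ((insert y G : Finset E) : Set E) := by
    refine N.closure_subset_closure_of_subset_closure ?_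
    rw [Finset.coe_insert]
    refine Set.insert_subset h1 ?_
    refine (N.subset_closure (G : Set E) hGi.subset_ground).trans (N.closure_subset_closure ?_)
    exact_mod_cast subset_insert y G
  refine Set.Subset.antisymm h3 ?_
  refine N.closure_subset_closure_of_subset_closure ?_
  have h4 : y ∈ N.closure ((insert x G : Finset E) : Set E) := by
    rw [Finset.coe_insert] at h1 ⊢
    have h5 : x ∉ N.closure (G : Set E) := by
      rw [Finset.coe_insert] at hx
      exact ((hGi.insert_indep_iff_of_notMem (by exact_mod_cast hxG)).1 hx).2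
    exact N.closure_exchange ⟨h1, h5⟩ |>.1
  rw [Finset.coe_insert y G]
  refine Set.insert_subset h4 ?_
  refine (N.subset_closure (G : Set E) hGi.subset_ground).trans (N.closure_subset_closure ?_)
  exact_mod_cast subset_insert x G

include hF hP in
/-- Distance two: an element outside both hyperplanes of the first matroid is a loop over `G` in the
second. -/
theorem generic {G : Finset E} {a1 a2 d1 d2 : E} (hG : G.card + 2 = r)
    (hFA : F (insert a1 (insert a2 G)) ≠ 0) (hPA : P (insert a1 (insert a2 G)))
    (hFD : F (insert d1 (insert d2 G)) ≠ 0) (hPD : ¬ P (insert d1 (insert d2 G)))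
    {e : E} (h1 : e ∉ N₁.closure ((insert a1 G : Finset E) : Set E))
    (h2 : e ∉ N₁.closure ((insert a2 G : Finset E) : Set E)) (hE1 : N₁.E = Set.univ)
    (hE2 : N₂.E = Set.univ) :
    e ∈ N₂.closure (G : Set E) := by
  classical
  obtain ⟨cA, iA1, iA2⟩ := (hF _).1 hFA
  obtain ⟨cD, iD1, iD2⟩ := (hF _).1 hFD
  have nm : ∀ x y : E, (insert x (insert y G)).card = r → x ≠ y ∧ x ∉ G ∧ y ∉ G := by
    intro x y h
    have hy : (insert y G).card ≤ G.card + 1 := card_insert_le _ _
    have hxm : x ∉ insert y G := by
      intro hx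
      rw [insert_eq_self.2 hx] at h
      omega
    rw [card_insert_of_notMem hxm] at h
    have hyG : y ∉ G := by
      intro hy'
      rw [insert_eq_self.2 hy'] at h
      omega
    rw [mem_insert] at hxm
    push Not at hxm
    exact ⟨hxm.1, hxm.2, hyG⟩
  obtain ⟨nA, a1G, a2G⟩ := nm _ _ cA
  obtain ⟨nD, d1G, d2G⟩ := nm _ _ cD
  have sub1 : ∀ (N : Matroid E) (x y : E), N.Indep ((insert x (insert y G) : Finset E) : Set E) →
      N.Indep ((insert x G : Finset E) : Set E) ∧ N.Indep ((insert y G : Finset E) : Set E) := by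
    intro N x y h
    refine ⟨h.subset ?_, h.subset ?_⟩
    · exact_mod_cast Finset.insert_subset_insert x (Finset.subset_insert y G)
    · exact_mod_cast Finset.subset_insert x (insert y G)
  -- different flats for an independent pair
  have diff : ∀ (N : Matroid E) (x y : E), x ≠ y → x ∉ G →
      N.Indep ((insert x (insert y G) : Finset E) : Set E) →
      N.closure ((insert x G : Finset E) : Set E) ≠ N.closure ((insert y G : Finset E) : Set E) := by
    intro N x y hxy hxG h heq
    have h3 := sub1 N x y h
    have h4 : x ∉ N.closure ((insert y G : Finset E) : Set E) := by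
      rw [Finset.coe_insert] at h
      refine ((h3.2.insert_indep_iff_of_notMem ?_).1 h).2
      intro h5
      have h6 : x ∈ insert y G := by exact_mod_cast h5
      rcases mem_insert.1 h6 with h7 | h7
      · exact hxy h7
      · exact hxG h7
    rw [← heq] at h4
    refine h4 (N.subset_closure _ h3.1.subset_ground ?_)
    exact_mod_cast mem_insert_self x G
  by_contra he
  -- `e` is not a loop over `G` in either matroid
  have hGi1 : N₁.Indep (G : Set E) := (sub1 N₁ _ _ iA1).1.subset (by
    exact_mod_cast subset_insert a1 G)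
  have hGi2 : N₂.Indep (G : Set E) := (sub1 N₂ _ _ iA2).1.subset (by
    exact_mod_cast subset_insert a1 G)
  have he1 : e ∉ N₁.closure (G : Set E) := fun h => h1 (N₁.closure_subset_closure (by
    exact_mod_cast subset_insert a1 G) h)
  have heG : e ∉ G := fun h => he (N₂.subset_closure (G : Set E) hGi2.subset_ground
    (by exact_mod_cast h))
  have ie1 : N₁.Indep ((insert e G : Finset E) : Set E) := by
    rw [Finset.coe_insert, hGi1.insert_indep_iff]
    exact Or.inl ⟨by rw [hE1]; trivial, he1⟩
  have ie2 : N₂.Indep ((insert e G : Finset E) : Set E) := by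
    rw [Finset.coe_insert, hGi2.insert_indep_iff]
    exact Or.inl ⟨by rw [hE2]; trivial, he⟩
  set p1 : E → Set E := fun x => N₁.closure ((insert x G : Finset E) : Set E) with hp1
  set p2 : E → Set E := fun x => N₂.closure ((insert x G : Finset E) : Set E) with hp2
  -- common pairs
  have com : ∀ x y, x ∉ G → y ∉ G → N₁.Indep ((insert x G : Finset E) : Set E) →
      N₁.Indep ((insert y G : Finset E) : Set E) → N₂.Indep ((insert x G : Finset E) : Set E) →
      N₂.Indep ((insert y G : Finset E) : Set E) → p1 x ≠ p1 y → p2 x ≠ p2 y →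
      F (insert x (insert y G)) ≠ 0 := by
    intro x y hx hy i1 i2 i3 i4 h5 h6
    obtain ⟨hxy, i5⟩ := indep_pair N₁ i1 hx i2 hy h5
    obtain ⟨_, i6⟩ := indep_pair N₂ i3 hx i4 hy h6
    refine (hF _).2 ⟨?_, i5, i6⟩
    rw [card_insert_of_notMem (by rw [mem_insert]; push Not; exact ⟨hxy, hx⟩),
      card_insert_of_notMem hy]
    omega
  have comm : ∀ x y : E, insert x (insert y G) = insert y (insert x G) := fun x y =>
    Finset.insert_comm x y G
  have adj : ∀ x y z : E, x ∉ G → F (insert x (insert y G)) ≠ 0 → F (insert x (insert z G)) ≠ 0 →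
      P (insert x (insert y G)) → P (insert x (insert z G)) := by
    intro x y z hx h1 h2 h3
    refine hP _ _ h3 h1 h2 ?_
    have h4 : insert x G ⊆ insert x (insert y G) ∩ insert x (insert z G) :=
      Finset.subset_inter (Finset.insert_subset_insert x (Finset.subset_insert y G))
        (Finset.insert_subset_insert x (Finset.subset_insert z G))
    have h5 := Finset.card_le_card h4
    rw [Finset.card_insert_of_notMem hx] at h5
    omega
  have dA1 := diff N₁ a1 a2 nA a1G iA1
  have dA2 := diff N₂ a1 a2 nA a1G iA2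
  have dD1 := diff N₁ d1 d2 nD d1G iD1
  have dD2 := diff N₂ d1 d2 nD d1G iD2
  obtain ⟨ia11, ia12⟩ := sub1 N₁ _ _ iA1
  obtain ⟨ia21, ia22⟩ := sub1 N₂ _ _ iA2
  obtain ⟨id11, id12⟩ := sub1 N₁ _ _ iD1
  obtain ⟨id21, id22⟩ := sub1 N₂ _ _ iD2
  -- `x` in the class of `P`: no common pair with `d1`, `d2`
  have cls : ∀ x, x ∉ G → N₁.Indep ((insert x G : Finset E) : Set E) →
      N₂.Indep ((insert x G : Finset E) : Set E) →
      (∃ y, F (insert x (insert y G)) ≠ 0 ∧ P (insert x (insert y G))) →
      p1 x = p1 d1 ∨ p1 x = p1 d2 := by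
    intro x hx i1 i2 ⟨y, hy1, hy2⟩
    by_contra hcon
    push Not at hcon
    have k1 : p2 x = p2 d1 := by
      by_contra h5
      have h6 := com x d1 hx d1G i1 id11 i2 id21 hcon.1 h5
      have h7 := adj x y d1 hx hy1 h6 hy2
      rw [comm] at h6 h7
      exact hPD (adj d1 x d2 d1G h6 hFD h7)
    have k2 : p2 x = p2 d2 := by
      by_contra h5
      have h6 := com x d2 hx d2G i1 id12 i2 id22 hcon.2 h5
      have h7 := adj x y d2 hx hy1 h6 hy2
      rw [comm] at h6 h7
      refine hPD ?_
      rw [comm d1 d2]
      refine adj d2 x d1 d2G h6 ?_ h7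
      rw [comm]
      exact hFD
    exact dD2 (k1.symm.trans k2)
  have c1 := cls a1 a1G ia11 ia21 ⟨a2, hFA, hPA⟩
  have c2 := cls a2 a2G ia12 ia22 ⟨a1, by rw [comm]; exact hFA, by rw [comm]; exact hPA⟩
  have e1 : p1 e ≠ p1 a1 := by
    intro h
    refine h1 ?_
    change e ∈ p1 a1
    rw [← h]
    exact N₁.subset_closure _ ie1.subset_ground (by exact_mod_cast mem_insert_self e G)
  have e2 : p1 e ≠ p1 a2 := by
    intro h
    refine h2 ?_
    change e ∈ p1 a2
    rw [← h]
    exact N₁.subset_closure _ ie1.subset_ground (by exact_mod_cast mem_insert_self e G)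
  have c3 : p1 e = p1 d1 ∨ p1 e = p1 d2 := by
    refine cls e heG ie1 ie2 ?_
    by_cases h5 : p2 e = p2 a1
    · have h6 : p2 e ≠ p2 a2 := fun h => dA2 (h5.symm.trans h)
      have h7 := com e a2 heG a2G ie1 ia12 ie2 ia22 e2 h6
      refine ⟨a2, h7, ?_⟩
      rw [comm] at h7 ⊢
      refine adj a2 a1 e a2G (by rw [comm]; exact hFA) h7 (by rw [comm]; exact hPA)
    · have h7 := com e a1 heG a1G ie1 ia11 ie2 ia21 e1 h5
      refine ⟨a1, h7, ?_⟩
      rw [comm] at h7 ⊢
      exact adj a1 a2 e a1G hFA h7 hPA
  have n12 : p1 a1 ≠ p1 a2 := dA1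
  rcases c1 with c1 | c1 <;> rcases c2 with c2 | c2 <;> rcases c3 with c3 | c3
  · exact n12 (c1.trans c2.symm)
  · exact n12 (c1.trans c2.symm)
  · exact e1 (c3.trans c1.symm)
  · exact e2 (c3.trans c2.symm)
  · exact e2 (c3.trans c2.symm)
  · exact e1 (c3.trans c1.symm)
  · exact n12 (c1.trans c2.symm)
  · exact n12 (c1.trans c2.symm)

end geo

end Pool.Agent.H23L4
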